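import Pool.Agent.W321.SQ.Stm

/-!
# SQ-CH: many disjoint chains
-/

set_option autoImplicit false

namespace Pool.Agent.W179.SQCH

open Finset Pool.Agent.W321.SP Pool.Agent.W321.SQ

variable {V : Type} [Fintype V] [DecidableEq V]

/-- children -/
def chd (v : V) (par : V → V) (y : V) : Finset V := univ.filter (fun z => z ≠ v ∧ par z = y)

theorem mem_chd {v : V} {par : V → V} {y z : V} : z ∈ chd v par y ↔ z ≠ v ∧ par z = y := by
  simp [chd]

/-- the ancestors of order 1, ..., i are not the root and have one child -/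
def One (v : V) (par : V → V) (i : ℕ) (x : V) : Prop :=
  x ≠ v ∧ ∀ j, 1 ≤ j → j ≤ i → par^[j] x ≠ v ∧ (chd v par (par^[j] x)).card = 1

theorem One.mono {v : V} {par : V → V} {i i' : ℕ} {x : V} (h : One v par i x) (hi : i' ≤ i) :
    One v par i' x := ⟨h.1, fun j h1 h2 => h.2 j h1 (h2.trans hi)⟩

theorem One.ne {v : V} {par : V → V} {i j : ℕ} {x : V} (h : One v par i x) (hj : j ≤ i) :
    par^[j] x ≠ v := by
  rcases Nat.eq_zero_or_pos j with rfl | hp
  · exact h.1
  · exact (h.2 j hp hj).1

theorem One.inj {v : V} {par : V → V} {i : ℕ} {x x' : V} (h : One v par i x)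
    (h' : One v par i x') (e : par^[i] x = par^[i] x') : x = x' := by
  induction i with
  | zero => exact e
  | succ i ih =>
    apply ih (h.mono (Nat.le_succ i)) (h'.mono (Nat.le_succ i))
    have h1 : par^[i] x ∈ chd v par (par^[i + 1] x) :=
      mem_chd.2 ⟨h.ne (Nat.le_succ i), (Function.iterate_succ_apply' par i x).symm⟩
    have h2 : par^[i] x' ∈ chd v par (par^[i + 1] x) :=
      mem_chd.2 ⟨h'.ne (Nat.le_succ i), by rw [e]; exact (Function.iterate_succ_apply' par i x').symm⟩
    obtain ⟨w, hw⟩ := Finset.card_eq_one.1 (h.2 (i + 1) (by omega) le_rfl).2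
    rw [hw, Finset.mem_singleton] at h1 h2
    rw [h1, h2]

theorem One.rk {v : V} {par : V → V} {rk : V → ℕ} (hR : Rt V v par rk) {i j : ℕ} {x : V}
    (h : One v par i x) (hj : j ≤ i) : rk (par^[j] x) + j = rk x := by
  induction j with
  | zero => rfl
  | succ j ih =>
    have h1 := hR.rp (par^[j] x) (h.ne (by omega))
    rw [Function.iterate_succ_apply']
    have h2 := ih (by omega)
    omega

section count

variable {v : V} {par : V → V} {L M : Finset V}
  (hL : ∀ x, x ∈ L ↔ x ≠ v ∧ par x = v ∧ Chl V v par x)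
  (hM : ∀ x, x ∈ M ↔ x ≠ v ∧ par x ≠ v ∧ Chl V v par x)

include hL in
theorem memR {x : V} : x ∈ (univ.erase v) \ L ↔ x ≠ v ∧ (par x ≠ v ∨ (chd v par x).Nonempty) := by
  rw [mem_sdiff, mem_erase, hL]
  constructor
  · rintro ⟨⟨h1, -⟩, h2⟩
    refine ⟨h1, ?_⟩
    by_contra h3
    push Not at h3
    apply h2
    refine ⟨h1, h3.1, ?_⟩
    intro y hy hpy
    have : y ∈ chd v par x := mem_chd.2 ⟨hy, hpy⟩
    rw [h3.2] at this
    simp at this
  · rintro ⟨h1, h2⟩
    refine ⟨⟨h1, mem_univ _⟩, ?_⟩
    rintro ⟨-, h3, h4⟩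
    rcases h2 with h2 | ⟨y, hy⟩
    · exact h2 h3
    · rw [mem_chd] at hy
      exact h4 y hy.1 hy.2

include hL in
theorem sum_chd : ∑ y ∈ (univ.erase v) \ L, (chd v par y).card +
    (((univ.erase v) \ L).filter (fun z => par z = v)).card = ((univ.erase v) \ L).card := by
  rw [← Finset.card_filter_add_card_filter_not (s := (univ.erase v) \ L) (fun z => par z = v),
    add_comm]
  congr 1
  rw [Finset.card_eq_sum_card_fiberwise (f := par) (t := (univ.erase v) \ L)]
  · apply Finset.sum_congr rfl
    intro y hy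
    congr 1
    ext z
    rw [mem_filter, mem_filter, memR hL, mem_chd]
    rw [memR hL] at hy
    constructor
    · rintro ⟨h1, h2⟩
      exact ⟨⟨⟨h1, Or.inl (by rw [h2]; exact hy.1)⟩, by rw [h2]; exact hy.1⟩, h2⟩
    · rintro ⟨⟨⟨h1, h2⟩, h3⟩, h4⟩
      exact ⟨h1, h4⟩
  · intro z hz
    rw [Finset.mem_coe, mem_filter, memR hL] at hz
    rw [Finset.mem_coe, memR hL]
    exact ⟨hz.2, Or.inr ⟨z, mem_chd.2 ⟨hz.1.1, rfl⟩⟩⟩

include hL hM in
theorem zero_card : (((univ.erase v) \ L).filter (fun y => (chd v par y).card = 0)).card ≤ M.card := by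
  apply Finset.card_le_card
  intro x hx
  rw [mem_filter, memR hL, Finset.card_eq_zero] at hx
  rw [hM]
  refine ⟨hx.1.1, ?_, ?_⟩
  · rcases hx.1.2 with h | h
    · exact h
    · rw [hx.2] at h; simp at h
  · intro y hy hpy
    have : y ∈ chd v par x := mem_chd.2 ⟨hy, hpy⟩
    rw [hx.2] at this
    simp at this

/-- the children of the root or of a branch vertex -/
def BB (v : V) (par : V → V) (L : Finset V) : Finset V :=
  ((univ.erase v) \ L).filter (fun z => par z = v ∨ 2 ≤ (chd v par (par z)).card)

include hL hM in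
theorem card_BB : (BB v par L).card ≤ 2 * M.card := by
  have h1 := sum_chd hL
  have h2 := zero_card hL hM
  have h3 : (BB v par L).card ≤ (((univ.erase v) \ L).filter (fun z => par z = v)).card +
      ∑ y ∈ (univ.erase v) \ L, (if 2 ≤ (chd v par y).card then (chd v par y).card else 0) := by
    rw [← Finset.sum_filter]
    refine le_trans ?_ (Nat.add_le_add_left Finset.card_biUnion_le _)
    refine le_trans (Finset.card_le_card ?_) (Finset.card_union_le _ _)
    intro z hz
    rw [BB, mem_filter] at hz
    rw [mem_union, mem_filter, mem_biUnion]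
    by_cases h : par z = v
    · exact Or.inl ⟨hz.1, h⟩
    · right
      refine ⟨par z, ?_, ?_⟩
      · rw [mem_filter, memR hL]
        have h4 := (memR hL).1 hz.1
        refine ⟨⟨h, Or.inr ⟨z, mem_chd.2 ⟨h4.1, rfl⟩⟩⟩, ?_⟩
        rcases hz.2 with h5 | h5
        · exact absurd h5 h
        · exact h5
      · exact mem_chd.2 ⟨((memR hL).1 hz.1).1, rfl⟩
  have h4 : ∑ y ∈ (univ.erase v) \ L, ((if 2 ≤ (chd v par y).card then (chd v par y).card else 0) + 2)
      ≤ ∑ y ∈ (univ.erase v) \ L, (2 * (chd v par y).card +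
        2 * (if (chd v par y).card = 0 then 1 else 0)) := by
    apply Finset.sum_le_sum
    intro y _
    split_ifs <;> omega
  rw [Finset.sum_add_distrib, Finset.sum_add_distrib, ← Finset.mul_sum, ← Finset.mul_sum,
    ← Finset.card_filter, Finset.sum_const, smul_eq_mul] at h4
  omega

/-- bottoms with one-child ancestors -/
noncomputable def PP (v : V) (par : V → V) (L : Finset V) (i : ℕ) : Finset V :=
  @Finset.filter V (fun x => One v par i x) (fun _ => Classical.propDecidable _) ((univ.erase v) \ L)

theorem mem_PP {v : V} {par : V → V} {L : Finset V} {i : ℕ} {x : V} :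
    x ∈ PP v par L i ↔ x ∈ (univ.erase v) \ L ∧ One v par i x := by
  unfold PP; rw [@mem_filter]

/-- good bottoms -/
noncomputable def Good (v : V) (par : V → V) (L K : Finset V) : Finset V :=
  @Finset.filter V (fun x => ∀ j ≤ 68, par^[j] x ∉ K) (fun _ => Classical.propDecidable _)
    (PP v par L 68)

theorem mem_Good {v : V} {par : V → V} {L K : Finset V} {x : V} :
    x ∈ Good v par L K ↔ x ∈ PP v par L 68 ∧ ∀ j ≤ 68, par^[j] x ∉ K := by
  unfold Good; rw [@mem_filter]

theorem card_fib (i : ℕ) (S : Finset V) :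
    ((PP v par L i).filter (fun x => par^[i] x ∈ S)).card ≤ S.card := by
  apply Finset.card_le_card_of_injOn (par^[i])
  · intro x hx
    rw [Finset.mem_coe, mem_filter] at hx
    exact hx.2
  · intro x hx x' hx' e
    rw [Finset.mem_coe, mem_filter, mem_PP] at hx hx'
    exact One.inj hx.1.2 hx'.1.2 e

include hL hM in
theorem card_Good (K : Finset V) : ((univ.erase v) \ L).card ≤
    (Good v par L K).card + 69 * K.card + 136 * M.card := by
  have h1 : (univ.erase v) \ L ⊆ Good v par L K ∪
      ((range 69).biUnion (fun i => (PP v par L i).filter (fun x => par^[i] x ∈ K)) ∪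
      (range 68).biUnion (fun i => (PP v par L i).filter (fun x => par^[i] x ∈ BB v par L))) := by
    intro x hx
    have hxv : x ≠ v := ((memR hL).1 hx).1
    by_cases hP : One v par 68 x
    · by_cases hK : ∀ j ≤ 68, par^[j] x ∉ K
      · exact mem_union_left _ (mem_Good.2 ⟨mem_PP.2 ⟨hx, hP⟩, hK⟩)
      · push Not at hK
        obtain ⟨j, hj, hjK⟩ := hK
        apply mem_union_right
        apply mem_union_left
        rw [mem_biUnion]
        exact ⟨j, mem_range.2 (by omega), mem_filter.2 ⟨mem_PP.2 ⟨hx, hP.mono hj⟩, hjK⟩⟩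
    · apply mem_union_right
      apply mem_union_right
      classical
      have h0 : One v par 0 x := ⟨hxv, fun j h1 h2 => by omega⟩
      have hex : ∃ i, ¬ One v par i x := ⟨68, hP⟩
      obtain ⟨i, hi⟩ : ∃ i, Nat.find hex = i + 1 := by
        rcases h : Nat.find hex with _ | i
        · exfalso
          have := Nat.find_spec hex
          rw [h] at this
          exact this h0
        · exact ⟨i, rfl⟩
      have hi1 : One v par i x := by
        by_contra hc
        have := Nat.find_min' hex hc
        omega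
      have hi2 : ¬ One v par (i + 1) x := by
        have := Nat.find_spec hex
        rwa [hi] at this
      have hi3 : i + 1 ≤ 68 := by
        have := Nat.find_min' hex hP
        omega
      rw [mem_biUnion]
      refine ⟨i, mem_range.2 (by omega), mem_filter.2 ⟨mem_PP.2 ⟨hx, hi1⟩, ?_⟩⟩
      have hzv : par^[i] x ≠ v := hi1.ne le_rfl
      have hz : par^[i] x ∈ (univ.erase v) \ L := by
        rcases Nat.eq_zero_or_pos i with rfl | hp
        · exact hx
        · rw [memR hL]
          refine ⟨hzv, Or.inr ?_⟩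
          rw [← Finset.card_pos, (hi1.2 i hp le_rfl).2]
          exact Nat.one_pos
      rw [BB, mem_filter]
      refine ⟨hz, ?_⟩
      by_contra hc
      push Not at hc
      apply hi2
      refine ⟨hxv, ?_⟩
      intro j hj1 hj2
      rcases Nat.lt_or_ge i j with hj | hj
      · obtain rfl : j = i + 1 := by omega
        rw [Function.iterate_succ_apply']
        refine ⟨hc.1, ?_⟩
        have : 0 < (chd v par (par (par^[i] x))).card :=
          Finset.card_pos.2 ⟨par^[i] x, mem_chd.2 ⟨hzv, rfl⟩⟩
        omega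
      · exact hi1.2 j hj1 hj
  have h2 := Finset.card_le_card h1
  have h3 := Finset.card_union_le (Good v par L K)
      ((range 69).biUnion (fun i => (PP v par L i).filter (fun x => par^[i] x ∈ K)) ∪
      (range 68).biUnion (fun i => (PP v par L i).filter (fun x => par^[i] x ∈ BB v par L)))
  have h4 := Finset.card_union_le
      ((range 69).biUnion (fun i => (PP v par L i).filter (fun x => par^[i] x ∈ K)))
      ((range 68).biUnion (fun i => (PP v par L i).filter (fun x => par^[i] x ∈ BB v par L)))
  have h5 : ((range 69).biUnion (fun i => (PP v par L i).filter (fun x => par^[i] x ∈ K))).card ≤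
      69 * K.card := by
    refine le_trans Finset.card_biUnion_le ?_
    refine le_trans (Finset.sum_le_sum (fun i _ => card_fib i K)) ?_
    simp
  have h6 : ((range 68).biUnion
      (fun i => (PP v par L i).filter (fun x => par^[i] x ∈ BB v par L))).card ≤
      68 * (BB v par L).card := by
    refine le_trans Finset.card_biUnion_le ?_
    refine le_trans (Finset.sum_le_sum (fun i _ => card_fib i (BB v par L))) ?_
    simp
  have h7 := card_BB hL hM
  omega

end count

theorem z_ch : ChStm := by
  intro V _ _ v par rk L M K n hR hL hM hn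
  have h1 := card_Good hL hM K
  have h2 : (range 69).card * n ≤ (Good v par L K).card := by
    rw [card_range]; omega
  obtain ⟨c, -, hc⟩ := Finset.exists_le_card_fiber_of_mul_le_card_of_maps_to
    (f := fun x => rk x % 69) (s := Good v par L K) (t := range 69)
    (fun x _ => mem_range.2 (Nat.mod_lt _ (by norm_num))) ⟨0, by simp⟩ h2
  obtain ⟨S, hS, hSn⟩ := Finset.exists_subset_card_eq hc
  let e := S.equivFinOfCardEq hSn
  let x : ℕ → V := fun i => if h : i < n then (e.symm ⟨i, h⟩).1 else v
  have hx : ∀ i (h : i < n), x i = (e.symm ⟨i, h⟩).1 := fun i h => dif_pos h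
  have hxS : ∀ i < n, x i ∈ S := by
    intro i h
    rw [hx i h]
    exact (e.symm ⟨i, h⟩).2
  have hxinj : ∀ i < n, ∀ i' < n, x i = x i' → i = i' := by
    intro i h i' h' hh
    rw [hx i h, hx i' h'] at hh
    have := e.symm.injective (Subtype.ext hh)
    simpa using this
  have hxG : ∀ i < n, x i ∈ Good v par L K ∧ rk (x i) % 69 = c := by
    intro i h
    have := hS (hxS i h)
    rw [mem_filter] at this
    exact this
  have hOne : ∀ i < n, One v par 68 (x i) := fun i h => (mem_PP.1 (mem_Good.1 (hxG i h).1).1).2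
  refine ⟨fun i j => par^[68 - j] (x i), ⟨?_, ?_, ?_, ?_⟩, ?_⟩
  · intro i hi j hj
    show par (par^[68 - (j + 1)] (x i)) = par^[68 - j] (x i)
    have e1 : 68 - j = (68 - (j + 1)) + 1 := by omega
    rw [e1, Function.iterate_succ_apply']
  · intro i hi j hj
    exact (hOne i hi).ne (Nat.sub_le _ _)
  · intro i hi j hj i' hi' j' hj' he
    have e0 : par^[68 - j] (x i) = par^[68 - j'] (x i') := he
    have r1 := (hOne i hi).rk hR (Nat.sub_le 68 j)
    have r2 := (hOne i' hi').rk hR (Nat.sub_le 68 j')
    have c1 := (hxG i hi).2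
    have c2 := (hxG i' hi').2
    rw [← e0] at r2
    have hjj : j = j' := by omega
    subst hjj
    refine ⟨?_, rfl⟩
    apply hxinj i hi i' hi'
    exact One.inj ((hOne i hi).mono (Nat.sub_le 68 j)) ((hOne i' hi').mono (Nat.sub_le 68 j)) e0
  · intro i hi j hj y hy hpy
    have hpy' : par y = par^[68 - j] (x i) := hpy
    have h3 : y ∈ chd v par (par^[68 - j] (x i)) := mem_chd.2 ⟨hy, hpy'⟩
    have h4 : par^[68 - (j + 1)] (x i) ∈ chd v par (par^[68 - j] (x i)) := by
      refine mem_chd.2 ⟨(hOne i hi).ne (Nat.sub_le _ _), ?_⟩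
      have e1 : 68 - j = (68 - (j + 1)) + 1 := by omega
      rw [e1, Function.iterate_succ_apply']
    obtain ⟨w, hw⟩ := Finset.card_eq_one.1 ((hOne i hi).2 (68 - j) (by omega) (Nat.sub_le _ _)).2
    rw [hw, Finset.mem_singleton] at h3 h4
    show y = par^[68 - (j + 1)] (x i)
    rw [h3, h4]
  · intro i hi j hj
    exact (mem_Good.1 (hxG i hi).1).2 _ (Nat.sub_le _ _)

end Pool.Agent.W179.SQCH
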